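import Pool.Graph.R_pool_sql_team_seeded_64922ed1.Results.MP_baa74b_lc.MemorySeparation

/-!
# Memory-restricted black-box algorithms: the possible queries

The removals made when all share points are stored are treated as arbitrary; all other random
choices are replaced by tables.
-/

open Finset
open scoped ENNReal

namespace Pool.Agent.KS6_80.MS

open Pool.Agent.Results.MP_baa74b_lc.MemorySeparation

section gen

variable {ι κ : Type} [Fintype ι] [DecidableEq ι] [Fintype κ] (w : ι → κ → ℝ≥0∞)
  (hw : ∀ i, ∑ y, w i y = 1)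

include hw

/-- marginal of a product of weights -/
lemma marg_gen (i0 : ι) (F : κ → ℝ≥0∞) :
    ∑ Q : ι → κ, (∏ i, w i (Q i)) * F (Q i0) = ∑ y, w i0 y * F y := by
  have h1 := Finset.prod_univ_sum (fun _ : ι => (univ : Finset κ))
    (fun i y => w i y * (if i = i0 then F y else 1))
  rw [Fintype.piFinset_univ] at h1
  have h2 : ∀ Q : ι → κ, (∏ i, w i (Q i)) * F (Q i0) =
      ∏ i, (w i (Q i) * (if i = i0 then F (Q i) else 1)) := by
    intro Q
    rw [prod_mul_distrib, prod_ite_eq' univ i0 (fun i => F (Q i)), if_pos (mem_univ _)]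
  rw [sum_congr rfl (fun Q _ => h2 Q), ← h1, ← mul_prod_erase univ _ (mem_univ i0)]
  have h3 : ∏ i ∈ univ.erase i0, ∑ y, w i y * (if i = i0 then F y else 1) = 1 := by
    apply prod_eq_one
    intro i hi
    rw [sum_congr rfl (fun y _ => by rw [if_neg (ne_of_mem_erase hi), mul_one])]
    exact hw i
  rw [h3, mul_one]
  apply sum_congr rfl
  intro y _
  rw [if_pos rfl]

lemma total_gen : ∑ Q : ι → κ, ∏ i, w i (Q i) = 1 := by
  have h1 := Finset.prod_univ_sum (fun _ : ι => (univ : Finset κ)) w
  rw [Fintype.piFinset_univ] at h1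
  rw [← h1]
  exact prod_eq_one fun i _ => hw i

end gen

variable {m q N : ℕ}

/-- pairs of a point and a value -/
abbrev Pr (m N q : ℕ) : Type := Sp (m + 1) N × Fin (q + 1)

/-- codes of the stored data when some share is missing -/
abbrev Dom (m N q : ℕ) : Type := (Fin (m + 1) → Sp (m + 1) N) × (Fin m → Fin q)

/-- all shares are stored -/
def Full (pos : Fin (m + 1) → Sp (m + 1) N) : Prop := ∀ i : Fin (m + 1), ∃ j, pos j = Sum.inl i

open Classical in
/-- a missing share -/
noncomputable def miss (pos : Fin (m + 1) → Sp (m + 1) N) : Fin (m + 1) :=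
  if h : ∃ i : Fin (m + 1), ∀ j, pos j ≠ Sum.inl i then h.choose else 0

lemma miss_spec {pos : Fin (m + 1) → Sp (m + 1) N} (h : ¬ Full pos) (j : Fin (m + 1)) :
    pos j ≠ Sum.inl (miss pos) := by
  have h1 : ∃ i : Fin (m + 1), ∀ j, pos j ≠ Sum.inl i := by
    unfold Full at h
    push Not at h
    exact h
  unfold miss
  rw [dif_pos h1]
  exact h1.choose_spec j

/-- the code -/
noncomputable def cod (a : Fin (m + 1) → Fin q) (pos : Fin (m + 1) → Sp (m + 1) N) : Dom m N q :=
  (pos, fun i => a ((miss pos).succAbove i))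

/-- the data from a code -/
noncomputable def dec (a0 : Fin q) (d : Dom m N q) : Fin (m + 1) → Pr m N q := fun j =>
  (d.1 j, blind (Fin.insertNth (α := fun _ => Fin q) (miss d.1) a0 d.2) (d.1 j))

lemma dec_cod (a0 : Fin q) (a : Fin (m + 1) → Fin q) {pos : Fin (m + 1) → Sp (m + 1) N}
    (h : ¬ Full pos) : dec a0 (cod a pos) = fun j => (pos j, blind a (pos j)) := by
  funext j
  have h1 := miss_spec h j
  unfold dec cod
  simp only [Prod.mk.injEq, true_and]
  rcases hp : pos j with i | z
  · rw [hp] at h1
    have h2 : i ≠ miss pos := fun h => h1 (by rw [h])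
    obtain ⟨i', hi'⟩ := Fin.exists_succAbove_eq h2
    simp only [blind]
    rw [← hi', Fin.insertNth_apply_succAbove]
  · rfl

/-- the values are right -/
def Cons (a : Fin (m + 1) → Fin q) {k : ℕ} (x : Fin k → Pr m N q) : Prop :=
  ∀ i, (x i).2 = blind a (x i).1

/-- the new data -/
def zz (a : Fin (m + 1) → Fin q) (x : Fin m → Pr m N q) (y : Sp (m + 1) N) :
    Fin (m + 1) → Pr m N q := Fin.cons (y, blind a y) x

lemma cons_zz {a : Fin (m + 1) → Fin q} {x : Fin m → Pr m N q} (h : Cons a x)
    (y : Sp (m + 1) N) : Cons a (zz a x y) := by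
  intro i
  unfold zz
  refine Fin.cases ?_ (fun i => ?_) i
  · rfl
  · simpa using h i

/-- the canonical data after all shares were stored and the share `j` was removed -/
def can (a : Fin (m + 1) → Fin q) (j : Fin (m + 1)) : Fin m → Pr m N q := fun i =>
  (Sum.inl (j.succAbove i), (a (j.succAbove i)).succ)

lemma cons_can (a : Fin (m + 1) → Fin q) (j : Fin (m + 1)) : Cons a (can (N := N) a j) :=
  fun _ => rfl

lemma full_erase (a : Fin (m + 1) → Fin q) {z : Fin (m + 1) → Pr m N q} (hz : Cons a z)
    (h : Full fun i => (z i).1) (l : Fin (m + 1)) :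
    ∃ j, toM (fun i => z (l.succAbove i)) = toM (can (N := N) a j) := by
  choose σ hσ using h
  have hinj : Function.Injective σ := by
    intro i i' hi
    have h1 := hσ i
    rw [hi, hσ i'] at h1
    exact (Sum.inl_injective h1).symm
  have hbij : Function.Bijective σ := Finite.injective_iff_bijective.1 hinj
  let e : Fin (m + 1) ≃ Fin (m + 1) := Equiv.ofBijective σ hbij
  have hz2 : ∀ l, z l = (Sum.inl (e.symm l), (a (e.symm l)).succ) := by
    intro l
    have h1 : (z l).1 = Sum.inl (e.symm l) := by
      have h2 := hσ (e.symm l)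
      have h3 : σ (e.symm l) = l := e.apply_symm_apply l
      rwa [h3] at h2
    have h2 := hz l
    rw [h1] at h2
    exact Prod.ext h1 h2
  let F : Fin (m + 1) → Pr m N q := fun i => (Sum.inl i, (a i).succ)
  have h1 : toM z = toM F := by
    unfold toM
    have h2 : (univ : Finset (Fin (m + 1))).val.map (fun i => ((z i).1, (((z i).2 : ℕ) : ℝ))) =
        ((univ : Finset (Fin (m + 1))).val.map e.symm).map
          (fun i => ((F i).1, (((F i).2 : ℕ) : ℝ))) := by
      rw [Multiset.map_map]
      apply Multiset.map_congr rfl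
      intro i _
      rw [hz2 i]
      rfl
    rw [h2, Multiset.map_univ_val_equiv]
  refine ⟨e.symm l, ?_⟩
  rw [toM_succAbove z l, toM_succAbove F (e.symm l), hz2 l] at h1
  exact (Multiset.cons_inj_right _).1 h1

open Classical in
/-- the index of a pair -/
noncomputable def idx (z : Fin (m + 1) → Pr m N q) (p : Pr m N q) : Fin (m + 1) :=
  if h : ∃ l, z l = p then h.choose else 0

lemma idx_spec {z : Fin (m + 1) → Pr m N q} {p : Pr m N q} (h : ∃ l, z l = p) :
    z (idx z p) = p := by
  unfold idx
  rw [dif_pos h]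
  exact h.choose_spec

/-- the pair with a real value -/
def rp (p : Pr m N q) : Sp (m + 1) N × ℝ := (p.1, ((p.2 : ℕ) : ℝ))

lemma rp_inj : Function.Injective (rp (m := m) (N := N) (q := q)) := by
  rintro ⟨y, v⟩ ⟨y', v'⟩ h
  unfold rp at h
  rw [Prod.mk.injEq] at h
  refine Prod.ext h.1 (Fin.ext ?_)
  exact_mod_cast h.2

lemma toM_ne (z : Fin (m + 1) → Pr m N q) : toM z ≠ 0 := by
  rw [toM_succAbove z 0]
  exact Multiset.cons_ne_zero

lemma drop_supp (A : Alg (Sp (m + 1) N) m) (z : Fin (m + 1) → Pr m N q) {p : Sp (m + 1) N × ℝ}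
    (hp : (A.drop (toM z)) p ≠ 0) : ∃ l, p = rp (z l) := by
  obtain ⟨i, hi⟩ := mem_toM (A.drop_mem _ (toM_ne z) p ((PMF.mem_support_iff _ _).2 hp))
  exact ⟨i, hi⟩

lemma tsum_pair (A : Alg (Sp (m + 1) N) m) (z : Fin (m + 1) → Pr m N q)
    (F : Sp (m + 1) N × ℝ → ℝ≥0∞) :
    ∑' p, (A.drop (toM z)) p * F p = ∑ p : Pr m N q, (A.drop (toM z)) (rp p) * F (rp p) := by
  have h := rp_inj.tsum_eq (f := fun p => (A.drop (toM z)) p * F p) (by
    intro p hp
    rw [Function.mem_support] at hp
    obtain ⟨l, hl⟩ := drop_supp A z (left_ne_zero_of_mul hp)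
    exact ⟨z l, hl.symm⟩)
  rw [← h, tsum_fintype]

/-- tables for the queries and for the removals with a missing share -/
abbrev T1 (m N q : ℕ) : Type := Table (Sp (m + 1) N) m q
abbrev T2 (m N q : ℕ) : Type := Dom m N q → Pr m N q

instance instT (m N q : ℕ) : Fintype (T1 m N q × T2 m N q) := instFintypeProd _ _

instance instR (m N q r : ℕ) : Fintype (Fin r → T1 m N q × T2 m N q) := Pi.instFintype

/-- the weights of the removals -/
noncomputable def wD (A : Alg (Sp (m + 1) N) m) (a0 : Fin q) (d : Dom m N q) (p : Pr m N q) :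
    ℝ≥0∞ := (A.drop (toM (dec a0 d))) (rp p)

lemma wD_sum (A : Alg (Sp (m + 1) N) m) (a0 : Fin q) (d : Dom m N q) :
    ∑ p, wD A a0 d p = 1 := by
  have h := tsum_pair A (dec a0 d) (fun _ => 1)
  simp only [mul_one] at h
  unfold wD
  rw [← h]
  exact (A.drop (toM (dec a0 d))).tsum_coe

noncomputable def wgtD (A : Alg (Sp (m + 1) N) m) (a0 : Fin q) (D : T2 m N q) : ℝ≥0∞ :=
  ∏ d, wD A a0 d (D d)

/-- the weight of a pair of tables -/
noncomputable def wP (A : Alg (Sp (m + 1) N) m) (a0 : Fin q) (Q : T1 m N q × T2 m N q) : ℝ≥0∞ :=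
  wgt A Q.1 * wgtD A a0 Q.2

lemma wgtD_total (A : Alg (Sp (m + 1) N) m) (a0 : Fin q) :
    ∑ D : T2 m N q, wgtD A a0 D = 1 := total_gen _ (wD_sum A a0)

lemma wP_total (A : Alg (Sp (m + 1) N) m) (a0 : Fin q) :
    ∑ Q : T1 m N q × T2 m N q, wP A a0 Q = 1 := by
  unfold wP
  rw [Fintype.sum_prod_type]
  simp only
  rw [sum_congr rfl fun Q _ => by rw [← mul_sum, wgtD_total, mul_one]]
  exact wgt_total A

lemma wQ_total (A : Alg (Sp (m + 1) N) m) (a0 : Fin q) (r : ℕ) :
    ∑ Q : Fin r → T1 m N q × T2 m N q, ∏ j, wP A a0 (Q j) = 1 :=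
  total_gen (fun _ : Fin r => wP A a0) fun _ => wP_total A a0

/-- the data after a removal by the table -/
noncomputable def nxt (a : Fin (m + 1) → Fin q) (z : Fin (m + 1) → Pr m N q) (D : T2 m N q) :
    Fin m → Pr m N q :=
  fun j => z ((idx z (D (cod a fun i => (z i).1))).succAbove j)

lemma cons_sub {a : Fin (m + 1) → Fin q} {z : Fin (m + 1) → Pr m N q} (h : Cons a z)
    (l : Fin (m + 1)) : Cons a fun j => z (l.succAbove j) := fun j => h (l.succAbove j)

open Classical in
/-- the next data, with a restart at `x0` when all shares are stored -/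
noncomputable def nx (a : Fin (m + 1) → Fin q) (x0 : Fin m → Pr m N q)
    (z : Fin (m + 1) → Pr m N q) (D : T2 m N q) : Fin m → Pr m N q :=
  if Full (fun i => (z i).1) then x0 else nxt a z D

/-- the queries, with a restart at `x0` when all shares are stored -/
noncomputable def path (a : Fin (m + 1) → Fin q) (x0 : Fin m → Pr m N q) : (r : ℕ) →
    (Fin r → T1 m N q × T2 m N q) → (Fin m → Pr m N q) → Finset (Sp (m + 1) N)
  | 0, _, _ => ∅
  | r + 1, Q, x => insert ((Q 0).1 x)
      (path a x0 r (fun j => Q j.succ) (nx a x0 (zz a x ((Q 0).1 x)) (Q 0).2))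

lemma card_path (a : Fin (m + 1) → Fin q) (x0 : Fin m → Pr m N q) (r : ℕ)
    (Q : Fin r → T1 m N q × T2 m N q) (x : Fin m → Pr m N q) : (path a x0 r Q x).card ≤ r := by
  induction r generalizing x with
  | zero => simp [path]
  | succ r ih =>
    simp only [path]
    refine (card_insert_le _ _).trans ?_
    apply Nat.add_le_add_right
    exact ih _ _

/-- the probability that `t` is not queried -/
noncomputable def gg (A : Alg (Sp (m + 1) N) m) (a0 : Fin q) (t : Sp (m + 1) N)
    (a : Fin (m + 1) → Fin q) (x0 : Fin m → Pr m N q) (r : ℕ) (x : Fin m → Pr m N q) : ℝ≥0∞ :=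
  ∑ Q : Fin r → T1 m N q × T2 m N q, (∏ j, wP A a0 (Q j)) *
    (if t ∈ path a x0 r Q x then 0 else 1)

lemma gg_le_one (A : Alg (Sp (m + 1) N) m) (a0 : Fin q) (t : Sp (m + 1) N)
    (a : Fin (m + 1) → Fin q) (x0 : Fin m → Pr m N q) (r : ℕ) (x : Fin m → Pr m N q) :
    gg A a0 t a x0 r x ≤ 1 := by
  refine le_trans ?_ (wQ_total A a0 r).le
  unfold gg
  apply sum_le_sum
  intro Q _
  calc _ ≤ (∏ j, wP A a0 (Q j)) * 1 := by
        gcongr
        split_ifs <;> simp
    _ = _ := mul_one _

lemma gg_zero (A : Alg (Sp (m + 1) N) m) (a0 : Fin q) (t : Sp (m + 1) N)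
    (a : Fin (m + 1) → Fin q) (x0 : Fin m → Pr m N q) (x : Fin m → Pr m N q) :
    gg A a0 t a x0 0 x = 1 := by
  refine Eq.trans ?_ (wQ_total A a0 0)
  unfold gg
  apply sum_congr rfl
  intro Q _
  simp [path]

lemma gg_succ (A : Alg (Sp (m + 1) N) m) (a0 : Fin q) (t : Sp (m + 1) N)
    (a : Fin (m + 1) → Fin q) (x0 : Fin m → Pr m N q) (r : ℕ) (x : Fin m → Pr m N q) :
    gg A a0 t a x0 (r + 1) x = ∑ y, A.pick (toM x) y * (if y = t then 0 else
      ∑ D : T2 m N q, wgtD A a0 D * gg A a0 t a x0 r (nx a x0 (zz a x y) D)) := by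
  rw [← marg A x (fun y => if y = t then 0 else
      ∑ D : T2 m N q, wgtD A a0 D * gg A a0 t a x0 r (nx a x0 (zz a x y) D))]
  conv_lhs => unfold gg
  rw [Pool.Agent.Results.MP_baa74b_lc.MemorySeparation.sum_cons, Fintype.sum_prod_type]
  apply sum_congr rfl
  intro Q0 _
  split_ifs with h
  · rw [mul_zero]
    apply sum_eq_zero
    intro D0 _
    apply sum_eq_zero
    intro Q' _
    simp only [path, Fin.cons_zero]
    rw [h, if_pos (mem_insert_self _ _), mul_zero]
  · rw [mul_sum]
    apply sum_congr rfl
    intro D0 _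
    unfold gg
    rw [mul_sum, mul_sum]
    apply sum_congr rfl
    intro Q' _
    rw [Fin.prod_univ_succ]
    simp only [Fin.cons_zero, Fin.cons_succ, path, wP, mem_insert]
    have h' : ¬ t = Q0 x := fun h2 => h h2.symm
    simp only [h', false_or]
    ring

lemma gg_mono (A : Alg (Sp (m + 1) N) m) (a0 : Fin q) (t : Sp (m + 1) N)
    (a : Fin (m + 1) → Fin q) (x0 : Fin m → Pr m N q) (r : ℕ) (x : Fin m → Pr m N q) :
    gg A a0 t a x0 (r + 1) x ≤ gg A a0 t a x0 r x := by
  induction r generalizing x with
  | zero =>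
    rw [gg_zero]
    exact gg_le_one _ _ _ _ _ _ _
  | succ r ih =>
    rw [gg_succ, gg_succ]
    apply sum_le_sum
    intro y _
    gcongr
    split_ifs
    · exact le_refl _
    · apply sum_le_sum
      intro D _
      gcongr
      exact ih _

/-- the restarts -/
def rs (a : Fin (m + 1) → Fin q) : Option (Fin (m + 1)) → Fin m → Pr m N q
  | none => can a 0
  | some j => can a j

open Classical in
lemma claim (A : Alg (Sp (m + 1) N) m) (a0 : Fin q) (φ : (Fin (m + 1) → Fin q) → Fin N)
    (a : Fin (m + 1) → Fin q) (r : ℕ) (c : Option (Fin (m + 1))) (x : Fin m → Pr m N q)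
    (hx : Cons a x) (X : Option (Fin (m + 1)) → Fin m → Pr m N q) (hc : X c = x)
    (hX : ∀ j, some j ≠ c → X (some j) = can a j) :
    (∏ c', gg A a0 (Sum.inr (φ a)) a (rs a c') r (X c')) +
      (rounds A (fn φ a) r (some (toM x))) none ≤ 1 := by
  induction r generalizing c x X with
  | zero => simp [rounds, gg_zero]
  | succ r ih =>
    set t : Sp (m + 1) N := Sum.inr (φ a) with ht
    set P : ℝ≥0∞ := ∏ c' ∈ univ.erase c, gg A a0 t a (rs a c') r (X c') with hP
    have hP1 : ∏ c', gg A a0 t a (rs a c') (r + 1) (X c') ≤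
        gg A a0 t a (rs a c) (r + 1) x * P := by
      rw [← mul_prod_erase univ _ (mem_univ c), hc]
      gcongr
      rw [hP]
      exact prod_le_prod' fun c' _ => gg_mono _ _ _ _ _ _ _
    have hP2 : ∀ x' : Fin m → Pr m N q, gg A a0 t a (rs a c) r x' * P =
        ∏ c', gg A a0 t a (rs a c') r (Function.update X c x' c') := by
      intro x'
      rw [← mul_prod_erase univ _ (mem_univ c), Function.update_self, hP]
      congr 1
      apply prod_congr rfl
      intro c' hc'
      rw [Function.update_of_ne (ne_of_mem_erase hc')]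
    refine (add_le_add hP1 le_rfl).trans ?_
    rw [gg_succ]
    simp only [rounds, step]
    rw [PMF.bind_bind, PMF.bind_apply, tsum_fintype, sum_mul, ← sum_add_distrib]
    have hpk : ∑ y, A.pick (toM x) y = 1 := by
      have := (A.pick (toM x)).tsum_coe
      rwa [tsum_fintype] at this
    rw [← hpk]
    apply sum_le_sum
    intro y _
    rw [mul_assoc, ← mul_add]
    refine (mul_le_mul_right (?_ : _ ≤ (1 : ℝ≥0∞)) _).trans (le_of_eq (mul_one _))
    by_cases hy : y = t
    · rw [if_pos hy, zero_mul, zero_add]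
      exact PMF.coe_le_one _ _
    · rw [if_neg hy]
      have hy2 : ¬ IsMax (fn φ a) y := fun h => hy ((isMax_iff φ a y).1 h)
      rw [if_neg hy2, PMF.bind_map, PMF.bind_apply, fn_blind φ a y hy, toM_cons]
      have hzz : (Fin.cons (y, blind a y) x : Fin (m + 1) → Pr m N q) = zz a x y := rfl
      rw [hzz]
      set z := zz a x y with hz
      have hcz : Cons a z := cons_zz hx y
      by_cases hF : Full fun i => (z i).1
      · have h1 : ∀ D : T2 m N q, nx a (rs a c) z D = rs a c := by
          intro D
          unfold nx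
          rw [if_pos hF]
        simp only [h1]
        rw [← sum_mul, wgtD_total, one_mul, hP2]
        have h2 : ∀ j, Function.update X c (rs a c) (some j) = can a j := by
          intro j
          by_cases hj : some j = c
          · rw [← hj, Function.update_self]
            rfl
          · rw [Function.update_of_ne hj]
            exact hX j hj
        have h3 : ∀ j, (∏ c', gg A a0 t a (rs a c') r (Function.update X c (rs a c) c')) +
            (rounds A (fn φ a) r (some (toM (can (N := N) a j)))) none ≤ 1 := fun j =>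
          ih (some j) (can a j) (cons_can a j) _ (h2 j) fun j' _ => h2 j'
        set W0 : ℝ≥0∞ := ∏ c', gg A a0 t a (rs a c') r (Function.update X c (rs a c) c') with hW0
        have h4 : W0 = ∑' p, (A.drop (toM z)) p * W0 := by
          rw [ENNReal.tsum_mul_right, PMF.tsum_coe, one_mul]
        calc _ = (∑' p, (A.drop (toM z)) p * W0) + _ := by rw [← h4]
          _ ≤ ∑' p, (A.drop (toM z)) p := by
              rw [← ENNReal.tsum_add]
              apply ENNReal.tsum_le_tsum
              intro p
              rw [← mul_add]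
              by_cases hp : (A.drop (toM z)) p = 0
              · rw [hp, zero_mul]
              · refine (mul_le_mul_right (?_ : _ ≤ (1 : ℝ≥0∞)) _).trans (le_of_eq (mul_one _))
                obtain ⟨i, hi⟩ := drop_supp A z hp
                obtain ⟨j, hj⟩ := full_erase a hcz hF i
                have herase : ∀ inst : DecidableEq (Sp (m + 1) N × ℝ),
                    @Multiset.erase _ inst (toM z) p = toM (can (N := N) a j) := by
                  intro inst
                  rw [← hj, toM_succAbove z i, hi]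
                  exact Multiset.erase_cons_head _ _
                simp only [Function.comp]
                rw [herase]
                exact h3 j
          _ = 1 := PMF.tsum_coe _
      · have h1 : ∀ D : T2 m N q, nx a (rs a c) z D = nxt a z D := by
          intro D
          unfold nx
          rw [if_neg hF]
        simp only [h1]
        let H : Pr m N q → ℝ≥0∞ := fun p =>
          gg A a0 t a (rs a c) r (fun j => z ((idx z p).succAbove j))
        have hzd : z = dec a0 (cod a fun i => (z i).1) := by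
          rw [dec_cod a0 a hF]
          funext j
          exact Prod.ext rfl (hcz j)
        have h2 : ∑ D : T2 m N q, wgtD A a0 D * gg A a0 t a (rs a c) r (nxt a z D) =
            ∑ p : Pr m N q, (A.drop (toM z)) (rp p) * H p := by
          have h3 := marg_gen (wD A a0) (wD_sum A a0) (cod a fun i => (z i).1) H
          have h4 : ∀ p, wD A a0 (cod a fun i => (z i).1) p = (A.drop (toM z)) (rp p) := by
            intro p
            unfold wD
            rw [← hzd]
          simp only [h4] at h3
          exact h3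
        rw [h2]
        have h5 := tsum_pair A z (fun _ => 1)
        simp only [mul_one] at h5
        rw [PMF.tsum_coe] at h5
        rw [tsum_pair A z, sum_mul, ← sum_add_distrib, h5]
        apply sum_le_sum
        intro p _
        rw [mul_assoc, ← mul_add]
        by_cases hp : (A.drop (toM z)) (rp p) = 0
        · rw [hp, zero_mul]
        · refine (mul_le_mul_right (?_ : _ ≤ (1 : ℝ≥0∞)) _).trans (le_of_eq (mul_one _))
          obtain ⟨i, hi⟩ := drop_supp A z hp
          have hi2 : z i = p := (rp_inj hi).symm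
          have hidx := idx_spec ⟨i, hi2⟩
          have herase : ∀ inst : DecidableEq (Sp (m + 1) N × ℝ),
              @Multiset.erase _ inst (toM z) (rp p) =
                toM (fun j => z ((idx z p).succAbove j)) := by
            intro inst
            rw [toM_succAbove z (idx z p), hidx]
            exact Multiset.erase_cons_head _ _
          simp only [Function.comp]
          rw [herase]
          simp only [H]
          rw [hP2]
          exact ih c _ (cons_sub hcz _) _ (Function.update_self _ _ _) fun j hj => by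
            rw [Function.update_of_ne hj]
            exact hX j hj

/-- the states at the start -/
def st (a : Fin (m + 1) → Fin q) (x : Fin m → Pr m N q) : Option (Fin (m + 1)) →
    Fin m → Pr m N q
  | none => x
  | some j => can a j

/-- all tables -/
abbrev TT (m N q R : ℕ) : Type := Option (Fin (m + 1)) → (Fin R → T1 m N q × T2 m N q)

instance instTT (m N q R : ℕ) : Fintype (TT m N q R) := Pi.instFintype

noncomputable def wT (A : Alg (Sp (m + 1) N) m) (a0 : Fin q) {R : ℕ} (Q : TT m N q R) : ℝ≥0∞ :=
  ∏ c, ∏ j, wP A a0 (Q c j)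

lemma wT_total (A : Alg (Sp (m + 1) N) m) (a0 : Fin q) (R : ℕ) :
    ∑ Q : TT m N q R, wT A a0 Q = 1 :=
  total_gen (fun (_ : Option (Fin (m + 1))) (Q : Fin R → T1 m N q × T2 m N q) =>
    ∏ j, wP A a0 (Q j)) fun _ => wQ_total A a0 R

/-- all the queries -/
noncomputable def UU (a : Fin (m + 1) → Fin q) {R : ℕ} (Q : TT m N q R)
    (x : Fin m → Pr m N q) : Finset (Sp (m + 1) N) :=
  univ.biUnion fun c => path a (rs a c) R (Q c) (st a x c)

lemma card_UU (a : Fin (m + 1) → Fin q) {R : ℕ} (Q : TT m N q R)
    (x : Fin m → Pr m N q) : (UU a Q x).card ≤ (m + 2) * R := by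
  unfold UU
  refine card_biUnion_le.trans ?_
  calc _ ≤ ∑ _c : Option (Fin (m + 1)), R := sum_le_sum fun c _ => card_path a _ R _ _
    _ = _ := by simp

open Classical in
lemma rounds_le3 (A : Alg (Sp (m + 1) N) m) (a0 : Fin q) (φ : (Fin (m + 1) → Fin q) → Fin N)
    (a : Fin (m + 1) → Fin q) (R : ℕ) (x : Fin m → Pr m N q) (hx : Cons a x) :
    (rounds A (fn φ a) R (some (toM x))) none ≤ ∑ Q : TT m N q R,
      wT A a0 Q * (if Sum.inr (φ a) ∈ UU a Q x then 1 else 0) := by
  have h1 := claim A a0 φ a R none x hx (st a x) rfl fun j _ => rfl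
  set t : Sp (m + 1) N := Sum.inr (φ a) with ht
  have h2 : (∏ c', gg A a0 t a (rs a c') R (st a x c')) =
      ∑ Q : TT m N q R, wT A a0 Q * (if t ∈ UU a Q x then 0 else 1) := by
    have h3 := Finset.prod_univ_sum
      (fun _ : Option (Fin (m + 1)) => (univ : Finset (Fin R → T1 m N q × T2 m N q)))
      (fun c Q => (∏ j, wP A a0 (Q j)) * (if t ∈ path a (rs a c) R Q (st a x c) then
        (0 : ℝ≥0∞) else 1))
    rw [Fintype.piFinset_univ] at h3
    unfold gg
    rw [h3]
    apply sum_congr rfl
    intro Q _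
    rw [prod_mul_distrib]
    unfold wT
    congr 1
    by_cases h4 : t ∈ UU a Q x
    · rw [if_pos h4]
      unfold UU at h4
      rw [mem_biUnion] at h4
      obtain ⟨c, -, hc⟩ := h4
      exact prod_eq_zero (mem_univ c) (if_pos hc)
    · rw [if_neg h4]
      apply prod_eq_one
      intro c _
      rw [if_neg]
      intro h5
      apply h4
      unfold UU
      rw [mem_biUnion]
      exact ⟨c, mem_univ _, h5⟩
  have h3 : (1 : ℝ≥0∞) = (∑ Q : TT m N q R, wT A a0 Q * (if t ∈ UU a Q x then 0 else 1)) +
      ∑ Q : TT m N q R, wT A a0 Q * (if t ∈ UU a Q x then 1 else 0) := by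
    rw [← sum_add_distrib]
    refine (wT_total A a0 R).symm.trans ?_
    apply sum_congr rfl
    intro Q _
    split_ifs <;> simp
  rw [h2] at h1
  have h4 : (∑ Q : TT m N q R, wT A a0 Q * (if t ∈ UU a Q x then 0 else 1)) ≠ ⊤ := by
    intro h5
    rw [h5] at h1
    simp at h1
  refine ENNReal.le_of_add_le_add_left h4 ?_
  rw [← h3]
  exact h1

end Pool.Agent.KS6_80.MS
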