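import Pool.Agent.KS6_80.MS.A

/-!
# The lower bound
-/

open Finset
open scoped ENNReal

namespace Pool.Agent.KS6_80.MS

open Pool.Agent.Results.MP_baa74b_lc.MemorySeparation

variable {m q N : ℕ}

open Classical in
/-- the candidates that can be queried -/
noncomputable def LL {R : ℕ} (i : (Fin m → Sp (m + 1) N) × TT m N q R) (a : Fin (m + 1) → Fin q) :
    Finset (Fin N) :=
  univ.filter fun z : Fin N => (∃ j, i.1 j = Sum.inr z) ∨
    Sum.inr z ∈ UU a i.2 (fun j => (i.1 j, blind a (i.1 j)))

lemma card_LL {R : ℕ} (i : (Fin m → Sp (m + 1) N) × TT m N q R) (a : Fin (m + 1) → Fin q) :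
    (LL i a).card ≤ m + (m + 2) * R := by
  classical
  obtain ⟨x, Q⟩ := i
  unfold LL
  rw [filter_or]
  refine (card_union_le _ _).trans ?_
  apply add_le_add
  · have h1 : (univ.filter fun z : Fin N => ∃ j, x j = Sum.inr z).card ≤
        (univ.image x).card := by
      apply card_le_card_of_injOn (fun z => Sum.inr z)
      · intro z hz
        rw [mem_coe, mem_filter] at hz
        obtain ⟨j, hj⟩ := hz.2
        rw [mem_coe, mem_image]
        exact ⟨j, mem_univ _, hj⟩
      · intro z _ z' _ h
        exact Sum.inr_injective h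
    refine h1.trans (card_image_le.trans ?_)
    simp
  · refine le_trans ?_ (card_UU a Q (fun j => (x j, blind a (x j))))
    apply card_le_card_of_injOn (fun z => Sum.inr z)
    · intro z hz
      rw [mem_coe, mem_filter] at hz
      exact mem_coe.2 hz.2
    · intro z _ z' _ h
      exact Sum.inr_injective h

open Classical in
lemma lower2 (hq : 0 < q) (R : ℕ) (φ : (Fin (m + 1) → Fin q) → Fin N)
    (hφ : ∀ i : (Fin m → Sp (m + 1) N) × TT m N q R,
      2 * (univ.filter fun a => φ a ∈ LL i a).card ≤ Fintype.card (Fin (m + 1) → Fin q))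
    (A : Alg (Sp (m + 1) N) m) :
    ∃ a, 2 * (state A (fn φ a) R) none ≤ 1 := by
  have : Nonempty (Fin q) := ⟨⟨0, hq⟩⟩
  let a0 : Fin q := ⟨0, hq⟩
  have hW : ∑ Q : TT m N q R, wT A a0 Q = 1 := wT_total A a0 R
  let ind : (Fin m → Sp (m + 1) N) → TT m N q R → (Fin (m + 1) → Fin q) → ℝ≥0∞ :=
    fun x Q a => if φ a ∈ LL (x, Q) a then 1 else 0
  have h1 : ∀ a, (state A (fn φ a) R) none ≤ ∑ x, A.init x * ∑ Q, wT A a0 Q * ind x Q a := by
    intro a
    unfold state
    rw [PMF.bind_apply, tsum_fintype]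
    apply sum_le_sum
    intro x _
    apply mul_le_mul_right
    split_ifs with hx
    · rw [rounds_none]
      have h2 : ∀ Q, ind x Q a = 1 := by
        intro Q
        simp only [ind]
        rw [if_pos]
        unfold LL
        rw [mem_filter]
        obtain ⟨j, hj⟩ := hx
        exact ⟨mem_univ _, Or.inl ⟨j, (isMax_iff φ a _).1 hj⟩⟩
      rw [sum_congr rfl (fun Q _ => by rw [h2 Q, mul_one]), hW]
      exact PMF.coe_le_one _ _
    · have h2 : (univ.val.map fun i => (x i, fn φ a (x i))) =
          toM (fun j => (x j, blind a (x j))) := by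
        unfold toM
        apply Multiset.map_congr rfl
        intro i _
        simp only
        rw [fn_blind φ a (x i) (fun h => hx ⟨i, (isMax_iff φ a _).2 h⟩)]
      rw [h2]
      refine (rounds_le3 A a0 φ a R _ (fun _ => rfl)).trans ?_
      apply sum_le_sum
      intro Q _
      apply mul_le_mul_right
      simp only [ind]
      split_ifs with h3 h4 h4
      · exact le_refl _
      · exfalso
        apply h4
        unfold LL
        rw [mem_filter]
        exact ⟨mem_univ _, Or.inr h3⟩
      · exact zero_le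
      · exact le_refl _
  have h2 : ∑ a, 2 * (state A (fn φ a) R) none ≤ ∑ _a : Fin (m + 1) → Fin q, (1 : ℝ≥0∞) := by
    calc ∑ a, 2 * (state A (fn φ a) R) none ≤ ∑ a, 2 * ∑ x, A.init x * ∑ Q, wT A a0 Q *
        ind x Q a := sum_le_sum fun a _ => mul_le_mul_right (h1 a) _
      _ = ∑ x, A.init x * ∑ Q, wT A a0 Q * (2 * ∑ a, ind x Q a) := by
          simp only [mul_sum]
          rw [sum_comm]
          apply sum_congr rfl
          intro x _
          rw [sum_comm]
          apply sum_congr rfl
          intro Q _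
          apply sum_congr rfl
          intro a _
          ring
      _ ≤ ∑ x, A.init x * ∑ Q : TT m N q R,
          wT A a0 Q * (Fintype.card (Fin (m + 1) → Fin q) : ℝ≥0∞) := by
          apply sum_le_sum
          intro x _
          apply mul_le_mul_right
          apply sum_le_sum
          intro Q _
          apply mul_le_mul_right
          have h3 := hφ (x, Q)
          have h4 : ∑ a, ind x Q a = ((univ.filter fun a => φ a ∈ LL (x, Q) a).card : ℝ≥0∞) := by
            simp only [ind]
            rw [← sum_filter, sum_const, nsmul_eq_mul, mul_one]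
          rw [h4]
          exact_mod_cast h3
      _ = (Fintype.card (Fin (m + 1) → Fin q) : ℝ≥0∞) := by
          have h6 : ∑ Q : TT m N q R,
              wT A a0 Q * (Fintype.card (Fin (m + 1) → Fin q) : ℝ≥0∞) =
              (Fintype.card (Fin (m + 1) → Fin q) : ℝ≥0∞) := by
            rw [← sum_mul, hW, one_mul]
          rw [h6, ← sum_mul]
          have h5 := A.init.tsum_coe
          rw [tsum_fintype] at h5
          rw [h5, one_mul]
      _ = _ := by simp
  by_contra hcon
  push Not at hcon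
  have h3 : ∀ a, (1 : ℝ) < (2 * (state A (fn φ a) R) none).toReal := by
    intro a
    have h4 : 2 * (state A (fn φ a) R) none ≠ ⊤ :=
      ENNReal.mul_ne_top (by norm_num) (PMF.apply_ne_top _ _)
    have h5 := (ENNReal.toReal_lt_toReal ENNReal.one_ne_top h4).2 (hcon a)
    simpa using h5
  have h4 : (∑ a, 2 * (state A (fn φ a) R) none).toReal ≤
      (∑ _a : Fin (m + 1) → Fin q, (1 : ℝ≥0∞)).toReal :=
    ENNReal.toReal_mono (by simp) h2
  rw [ENNReal.toReal_sum (fun a _ => ENNReal.mul_ne_top (by norm_num) (PMF.apply_ne_top _ _)),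
    ENNReal.toReal_sum (fun a _ => ENNReal.one_ne_top)] at h4
  have h5 : ∑ _a : Fin (m + 1) → Fin q, (1 : ℝ≥0∞).toReal <
      ∑ a, (2 * (state A (fn φ a) R) none).toReal := by
    apply sum_lt_sum_of_nonempty univ_nonempty
    intro a _
    simpa using h3 a
  linarith

/-- the number of strategies is small compared with the number of functions -/
lemma exists_q2 (s m R : ℕ) (hs : 0 < s) : ∃ q, 0 < q ∧
    s ^ m * ((s ^ ((s * (q + 1)) ^ m) * (s * (q + 1)) ^ (s ^ (m + 1) * q ^ m)) ^ R) ^ (m + 2) <
      4 ^ (q ^ (m + 1)) := by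
  set C := m + (s ^ m * 2 ^ m + s ^ (m + 1)) * R * (m + 2) with hC
  set u := s + 3 * C with hu
  set q := 2 ^ (2 * u) with hq
  have hq1 : 1 ≤ q := Nat.one_le_two_pow
  refine ⟨q, by omega, ?_⟩
  set B := s * (q + 1) with hB
  have hB1 : 1 ≤ B := by
    rw [hB]
    exact Nat.mul_pos hs (by omega)
  have hsB : s ≤ B := by
    rw [hB]
    exact Nat.le_mul_of_pos_right _ (by omega)
  have hB2 : B ≤ 2 ^ (s + 2 * u + 1) := by
    have h2 : s ≤ 2 ^ s := Nat.lt_two_pow_self.le
    calc B = s * (q + 1) := hB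
      _ ≤ 2 ^ s * (2 * q) := by
          apply Nat.mul_le_mul h2
          omega
      _ = 2 ^ (s + 2 * u + 1) := by
          rw [hq]
          ring
  have h3 : B ^ m ≤ s ^ m * 2 ^ m * q ^ m := by
    calc B ^ m = s ^ m * (q + 1) ^ m := by rw [hB, mul_pow]
      _ ≤ s ^ m * (2 * q) ^ m := by
          apply Nat.mul_le_mul_left
          apply Nat.pow_le_pow_left
          omega
      _ = s ^ m * 2 ^ m * q ^ m := by
          rw [mul_pow]
          ring
  have h4 : 1 ≤ q ^ m := Nat.one_le_pow _ _ (by omega)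
  have hE : m + (B ^ m + s ^ (m + 1) * q ^ m) * R * (m + 2) ≤ C * q ^ m := by
    calc m + (B ^ m + s ^ (m + 1) * q ^ m) * R * (m + 2) ≤
        m * q ^ m + (s ^ m * 2 ^ m * q ^ m + s ^ (m + 1) * q ^ m) * R * (m + 2) := by
          gcongr
          nlinarith
      _ = C * q ^ m := by
          rw [hC]
          ring
  have hfin : (s + 2 * u + 1) * C ≤ q := by
    have h5 : u + 1 ≤ 2 ^ u := Nat.lt_two_pow_self
    calc (s + 2 * u + 1) * C ≤ (3 * (u + 1)) * C := by
          apply Nat.mul_le_mul_right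
          omega
      _ = (u + 1) * (3 * C) := by ring
      _ ≤ (u + 1) * (u + 1) := by
          apply Nat.mul_le_mul_left
          omega
      _ ≤ 2 ^ u * 2 ^ u := Nat.mul_le_mul h5 h5
      _ = q := by
          rw [hq, ← pow_add]
          congr 1
          ring
  calc s ^ m * ((s ^ (B ^ m) * B ^ (s ^ (m + 1) * q ^ m)) ^ R) ^ (m + 2)
      ≤ B ^ m * ((B ^ (B ^ m) * B ^ (s ^ (m + 1) * q ^ m)) ^ R) ^ (m + 2) := by
        gcongr
    _ = B ^ (m + (B ^ m + s ^ (m + 1) * q ^ m) * R * (m + 2)) := by
        rw [← pow_add, ← pow_mul, ← pow_mul, ← pow_add, mul_assoc _ R]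
    _ ≤ B ^ (C * q ^ m) := Nat.pow_le_pow_right hB1 hE
    _ ≤ (2 ^ (s + 2 * u + 1)) ^ (C * q ^ m) := Nat.pow_le_pow_left hB2 _
    _ = 2 ^ ((s + 2 * u + 1) * C * q ^ m) := by
        rw [← pow_mul]
        congr 1
        ring
    _ ≤ 2 ^ (q * q ^ m) := by
        apply Nat.pow_le_pow_right (by norm_num)
        exact Nat.mul_le_mul_right _ hfin
    _ = 2 ^ (q ^ (m + 1)) := by
        rw [pow_succ, mul_comm]
    _ < 4 ^ (q ^ (m + 1)) := by
        apply Nat.pow_lt_pow_left (by norm_num)
        positivity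

/-- the gap on the search space with `m + 1` share points and `N` candidates -/
theorem gap (m N L : ℕ) (h : 64 * (m + (m + 2) * (2 * L)) ≤ N) (hN0 : 0 < N) :
    ∃ F : Set (Sp (m + 1) N → ℝ),
      complexity (m + 1) F ≤ (m : ℝ≥0∞) + 2 ∧ (L : ℝ≥0∞) ≤ complexity m F := by
  classical
  set R := 2 * L with hR
  obtain ⟨q, hq, hq2⟩ := exists_q2 (m + 1 + N) m R (by omega)
  have : Nonempty (Fin q) := ⟨⟨0, hq⟩⟩
  have : Nonempty (Sp (m + 1) N) := ⟨Sum.inl 0⟩
  obtain ⟨φ, hφ⟩ := exists_phi (I := (Fin m → Sp (m + 1) N) × TT m N q R)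
    (T := Fin (m + 1) → Fin q) (N := N) (K := m + (m + 2) * R) h hN0
    (fun i a => LL i a) (fun i a => card_LL i a)
    (by
      refine lt_of_le_of_lt (le_of_eq ?_) (hq2.trans_le (le_of_eq ?_))
      · simp only [Fintype.card_prod, Fintype.card_pi, prod_const, card_univ, Fintype.card_fin,
          Fintype.card_sum, Fintype.card_option]
      · simp only [Fintype.card_pi, prod_const, card_univ, Fintype.card_fin])
  refine ⟨Set.range (fn φ), ?_, ?_⟩
  · refine iInf_le_of_le (algB φ) (iSup₂_le ?_)
    rintro f ⟨a, rfl⟩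
    refine (upper φ a).trans (le_of_eq ?_)
    push_cast
    rw [add_assoc]
    norm_num
  · refine le_iInf fun A => ?_
    obtain ⟨a, ha⟩ := lower2 hq R φ hφ A
    refine le_iSup₂_of_le (fn φ a) ⟨a, rfl⟩ ?_
    unfold expT
    refine le_trans ?_ le_add_self
    refine le_trans ?_ (ENNReal.sum_le_tsum (range R))
    have hp : (state A (fn φ a) R) none ≤ 1 := PMF.coe_le_one _ _
    have h1 : (1 : ℝ≥0∞) ≤ 2 * (1 - (state A (fn φ a) R) none) := by
      rw [ENNReal.mul_sub (by intros; norm_num)]
      apply ENNReal.le_sub_of_add_le_left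
      · exact ENNReal.mul_ne_top (by norm_num) (PMF.apply_ne_top _ _)
      · calc 2 * (state A (fn φ a) R) none + 1 ≤ 1 + 1 := add_le_add ha le_rfl
          _ = 2 * 1 := by norm_num
    calc (L : ℝ≥0∞) = L * 1 := (mul_one _).symm
      _ ≤ L * (2 * (1 - (state A (fn φ a) R) none)) := mul_le_mul_right h1 _
      _ = ∑ r ∈ range R, (1 - (state A (fn φ a) R) none) := by
          rw [sum_const, card_range, nsmul_eq_mul, hR]
          push_cast
          ring
      _ ≤ ∑ r ∈ range R, (1 - (state A (fn φ a) r) none) := by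
          apply sum_le_sum
          intro r hr
          exact tsub_le_tsub_left (state_mono A _ (mem_range.1 hr).le) _

end Pool.Agent.KS6_80.MS
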