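import Pool.Agent.KS6_80.MS.B

/-!
# Relabelling the search space
-/

open Finset
open scoped ENNReal

namespace Pool.Agent.KS6_80.MS

open Pool.Agent.Results.MP_baa74b_lc.MemorySeparation

variable {S S' : Type} {m : ℕ}

/-- relabelled data -/
def mp (e : S ≃ S') (X : Multiset (S × ℝ)) : Multiset (S' × ℝ) := X.map (Prod.map e id)

lemma mp_mp (e : S ≃ S') (X : Multiset (S × ℝ)) : mp e.symm (mp e X) = X := by
  unfold mp
  rw [Multiset.map_map]
  have h : (Prod.map e.symm id ∘ Prod.map e id : S × ℝ → S × ℝ) = id := by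
    funext p
    simp [Prod.map]
  rw [h, Multiset.map_id]

lemma pe_inj (e : S ≃ S') : Function.Injective (Prod.map e (id : ℝ → ℝ)) :=
  e.injective.prodMap Function.injective_id

/-- the relabelled algorithm -/
noncomputable def tr (e : S ≃ S') (A : Alg S m) : Alg S' m where
  init := A.init.map (fun x i => e (x i))
  pick X := (A.pick (mp e.symm X)).map e
  drop X := (A.drop (mp e.symm X)).map (Prod.map e id)
  drop_mem := by
    intro X hX p hp
    rw [PMF.mem_support_map_iff] at hp
    obtain ⟨p', hp', rfl⟩ := hp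
    have h := A.drop_mem (mp e.symm X) (by
      unfold mp
      simpa using hX) p' hp'
    unfold mp at h
    rw [Multiset.mem_map] at h
    obtain ⟨p'', h1, h2⟩ := h
    rw [← h2]
    simpa [Prod.map] using h1

lemma isMax_tr (e : S ≃ S') (f : S → ℝ) (y : S) :
    Pool.Agent.Results.MP_baa74b_lc.MemorySeparation.IsMax (f ∘ e.symm) (e y) ↔
      Pool.Agent.Results.MP_baa74b_lc.MemorySeparation.IsMax f y := by
  unfold Pool.Agent.Results.MP_baa74b_lc.MemorySeparation.IsMax
  constructor
  · intro h z
    simpa using h (e z)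
  · intro h z
    simpa using h (e.symm z)

lemma step_tr (e : S ≃ S') (A : Alg S m) (f : S → ℝ) (o : Option (Multiset (S × ℝ))) :
    step (tr e A) (f ∘ e.symm) (o.map (mp e)) = (step A f o).map (Option.map (mp e)) := by
  classical
  rcases o with _ | X
  · simp [step, PMF.pure_map]
  · simp only [Option.map_some, step, tr]
    rw [mp_mp, PMF.bind_map, PMF.map_bind]
    congr 1
    funext y
    simp only [Function.comp]
    by_cases hy : Pool.Agent.Results.MP_baa74b_lc.MemorySeparation.IsMax f y
    · rw [if_pos hy, if_pos ((isMax_tr e f y).2 hy), PMF.pure_map]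
      rfl
    · rw [if_neg hy, if_neg (fun h => hy ((isMax_tr e f y).1 h))]
      have h1 : (e y, f (e.symm (e y))) ::ₘ mp e X = mp e ((y, f y) ::ₘ X) := by
        unfold mp
        rw [Multiset.map_cons]
        simp
      rw [h1, mp_mp, PMF.map_comp, PMF.map_comp]
      congr 1
      funext p
      simp only [Function.comp, Option.map_some]
      congr 1
      unfold mp
      rw [Multiset.map_erase _ (pe_inj e)]

lemma rounds_tr (e : S ≃ S') (A : Alg S m) (f : S → ℝ) (r : ℕ) (o : Option (Multiset (S × ℝ))) :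
    rounds (tr e A) (f ∘ e.symm) r (o.map (mp e)) =
      (rounds A f r o).map (Option.map (mp e)) := by
  induction r generalizing o with
  | zero => simp [rounds, PMF.pure_map]
  | succ r ih =>
    simp only [rounds]
    rw [step_tr, PMF.bind_map, PMF.map_bind]
    congr 1
    funext o'
    exact ih o'

lemma state_tr (e : S ≃ S') (A : Alg S m) (f : S → ℝ) (r : ℕ) :
    state (tr e A) (f ∘ e.symm) r = (state A f r).map (Option.map (mp e)) := by
  classical
  unfold state
  have h0 : (tr e A).init = A.init.map (fun x i => e (x i)) := rfl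
  rw [h0, PMF.bind_map, PMF.map_bind]
  congr 1
  funext x
  rw [← rounds_tr]
  simp only [Function.comp]
  congr 1
  by_cases hx : ∃ i, Pool.Agent.Results.MP_baa74b_lc.MemorySeparation.IsMax f (x i)
  · rw [if_pos hx, if_pos]
    · rfl
    · obtain ⟨i, hi⟩ := hx
      exact ⟨i, (isMax_tr e f _).2 hi⟩
  · rw [if_neg hx, if_neg]
    · simp only [Option.map_some]
      congr 1
      unfold mp
      rw [Multiset.map_map]
      apply Multiset.map_congr rfl
      intro i _
      simp
    · rintro ⟨i, hi⟩
      exact hx ⟨i, (isMax_tr e f _).1 hi⟩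

lemma state_none_tr (e : S ≃ S') (A : Alg S m) (f : S → ℝ) (r : ℕ) :
    state (tr e A) (f ∘ e.symm) r none = state A f r none := by
  rw [state_tr, PMF.map_apply, tsum_eq_single none]
  · simp
  · intro o ho
    rcases o with _ | X
    · exact absurd rfl ho
    · simp

lemma expT_tr (e : S ≃ S') (A : Alg S m) (f : S → ℝ) :
    expT (tr e A) (f ∘ e.symm) = expT A f := by
  unfold expT
  simp only [state_none_tr]
  congr 1
  apply sum_congr rfl
  intro t _
  have h0 : (tr e A).init = A.init.map (fun x i => e (x i)) := rfl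
  rw [h0, PMF.toOuterMeasure_map_apply]
  congr 1
  ext x
  simp only [Set.mem_preimage, Set.mem_ofPred_eq]
  apply forall_congr'
  intro i
  apply imp_congr_right
  intro _
  rw [isMax_tr]

lemma complexity_tr_le (e : S ≃ S') (F : Set (S → ℝ)) :
    complexity m ((fun f => f ∘ e.symm) '' F) ≤ complexity m F := by
  unfold complexity
  refine le_iInf fun A => iInf_le_of_le (tr e A) (iSup₂_le ?_)
  rintro f' ⟨f, hf, rfl⟩
  simp only
  rw [expT_tr]
  exact le_iSup₂_of_le f hf le_rfl

lemma complexity_tr (e : S ≃ S') (F : Set (S → ℝ)) :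
    complexity m ((fun f => f ∘ e.symm) '' F) = complexity m F := by
  apply le_antisymm (complexity_tr_le e F)
  have h := complexity_tr_le (m := m) e.symm ((fun f => f ∘ e.symm) '' F)
  have h2 : (fun f : S' → ℝ => f ∘ e.symm.symm) '' ((fun f : S → ℝ => f ∘ e.symm) '' F) = F := by
    rw [Set.image_image]
    have h3 : (fun f : S → ℝ => (f ∘ e.symm) ∘ e.symm.symm) = id := by
      funext f x
      simp
    rw [h3, Set.image_id]
  rwa [h2] at h

/-- the trivial algorithm -/
noncomputable def alg0 (s0 : S) : Alg S m where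
  init := PMF.pure fun _ => s0
  pick _ := PMF.pure s0
  drop X := by
    classical
    exact if h : ∃ p, p ∈ X then PMF.pure h.choose else PMF.pure (s0, 0)
  drop_mem := by
    intro X hX p hp
    obtain ⟨p0, hp0⟩ := Multiset.exists_mem_of_ne_zero hX
    have h : ∃ p, p ∈ X := ⟨p0, hp0⟩
    rw [dif_pos h, PMF.support_pure, Set.mem_singleton_iff] at hp
    rw [hp]
    exact h.choose_spec

theorem main (μ n : ℕ) : ∃ F : Set ((Fin n → Bool) → ℝ),
    complexity (μ + 1) F ≤ (μ : ℝ≥0∞) + 2 ∧
      ((2 ^ n / (193 * (μ + 2)) : ℕ) : ℝ≥0∞) ≤ complexity μ F := by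
  rcases Nat.eq_zero_or_pos (2 ^ n / (193 * (μ + 2))) with h0 | h0
  · refine ⟨∅, ?_, ?_⟩
    · refine iInf_le_of_le (alg0 fun _ => true) ?_
      simp
    · rw [h0]
      simp
  · set L := 2 ^ n / (193 * (μ + 2)) with hL
    have h1 : 193 * (μ + 2) * L ≤ 2 ^ n := Nat.mul_div_le _ _
    have h2 : 193 * (μ + 2) ≤ 193 * (μ + 2) * L := Nat.le_mul_of_pos_right _ h0
    set N := 2 ^ n - (μ + 1) with hN
    have h3 : 64 * (μ + (μ + 2) * (2 * L)) ≤ N := by
      have h4 : 65 * (μ + 2) ≤ 65 * (μ + 2) * L := Nat.le_mul_of_pos_right _ h0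
      have h5 : 193 * (μ + 2) * L = 128 * ((μ + 2) * L) + 65 * (μ + 2) * L := by ring
      have h6 : 64 * (μ + (μ + 2) * (2 * L)) = 64 * μ + 128 * ((μ + 2) * L) := by ring
      omega
    obtain ⟨F, hF1, hF2⟩ := gap μ N L h3 (by omega)
    have hcard : Fintype.card (Sp (μ + 1) N) = Fintype.card (Fin n → Bool) := by
      simp only [Fintype.card_sum, Fintype.card_fin, Fintype.card_pi, Fintype.card_bool,
        prod_const, card_univ]
      omega
    let e := Fintype.equivOfCardEq hcard
    refine ⟨(fun f => f ∘ e.symm) '' F, ?_, ?_⟩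
    · rw [complexity_tr]
      exact hF1
    · rw [complexity_tr]
      exact hF2

end Pool.Agent.KS6_80.MS
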